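import Pool.Agent.Lib.MP_c1c973_an.Gen.Dense

/- Over every minimal rotation of an infinite compact metric abelian group there is a Besicovitch
cylindrical transformation all of whose orbits are dense or discrete. -/

namespace Pool.Agent.Results.MP_c1c973_an.GroupDichotomy

open Filter Topology Pool.Agent.Lib.MP_c1c973_an.Gen

/-- The cylindrical transformation `(x, t) ↦ (x + α, t + φ x)` as a permutation of `X × ℝ`. -/
def cyl {X : Type*} [AddCommGroup X] (α : X) (φ : X → ℝ) : Equiv.Perm (X × ℝ) where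
  toFun p := (p.1 + α, p.2 + φ p.1)
  invFun p := (p.1 - α, p.2 - φ (p.1 - α))
  left_inv p := by simp
  right_inv p := by simp

/-- The full `ℤ`-orbit of `p` under the cylindrical transformation. -/
def orbit {X : Type*} [AddCommGroup X] (α : X) (φ : X → ℝ) (p : X × ℝ) : Set (X × ℝ) :=
  Set.range fun n : ℤ => (cyl α φ ^ n) p

/-- The orbit of `p` is discrete, in both senses: every point of the orbit has a neighbourhood
meeting the orbit only in that point, and the Birkhoff sums tend to infinity in absolute value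
as `|n| → ∞`. -/
def IsDiscreteOrbit {X : Type*} [AddCommGroup X] [TopologicalSpace X] (α : X) (φ : X → ℝ)
    (p : X × ℝ) : Prop :=
  (∀ y ∈ orbit α φ p, ∃ U ∈ 𝓝 y, U ∩ orbit α φ p = {y}) ∧
    Tendsto (fun n : ℤ => |((cyl α φ ^ n) p).2 - p.2|) cofinite atTop

lemma isDiscreteOrbit_of_tendsto {X : Type*} [AddCommGroup X] [MetricSpace X] (α : X) (φ : X → ℝ)
    (p : X × ℝ) (h : Tendsto (fun n : ℤ => |((cyl α φ ^ n) p).2 - p.2|) cofinite atTop) :
    IsDiscreteOrbit α φ p := by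
  refine ⟨fun y hy => ?_, h⟩
  have hfin : {n : ℤ | ¬(|y.2 - p.2| + 1 ≤ |((cyl α φ ^ n) p).2 - p.2|)}.Finite :=
    eventually_cofinite.1 (tendsto_atTop.1 h _)
  set K : Set (X × ℝ) := ((fun n : ℤ => (cyl α φ ^ n) p) ''
    {n : ℤ | ¬(|y.2 - p.2| + 1 ≤ |((cyl α φ ^ n) p).2 - p.2|)}) \ {y} with hK
  have hKc : IsClosed K := ((hfin.image _).subset Set.sdiff_subset).isClosed
  have hV : IsOpen {q : X × ℝ | |q.2 - p.2| < |y.2 - p.2| + 1} :=
    isOpen_lt (by fun_prop) continuous_const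
  refine ⟨{q : X × ℝ | |q.2 - p.2| < |y.2 - p.2| + 1} ∩ Kᶜ,
    (hV.inter hKc.isOpen_compl).mem_nhds ⟨by simp, by simp [hK]⟩, ?_⟩
  ext q
  constructor
  · rintro ⟨⟨h1, h2⟩, n, rfl⟩
    by_contra hne
    exact h2 ⟨⟨n, not_le.2 h1, rfl⟩, hne⟩
  · rintro rfl
    exact ⟨⟨by simp, by simp [hK]⟩, hy⟩

lemma cyl_apply {X : Type*} [AddCommGroup X] (α : X) (φ : X → ℝ) (x : X) (t : ℝ) :
    cyl α φ (x, t) = (x + α, t + φ x) := rfl

lemma cyl_zpow' {X : Type*} [AddCommGroup X] (α : X) (φ : X → ℝ) (x : X) (t : ℝ) (n : ℤ) :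
    (cyl α φ ^ n) (x, t) = (x + n • α, t + ((cyl α φ ^ n) (x, 0)).2) := by
  induction n using Int.induction_on generalizing t with
  | zero => simp
  | succ n ih =>
    rw [add_comm (n : ℤ) 1, zpow_one_add, Equiv.Perm.mul_apply, Equiv.Perm.mul_apply, ih t, ih 0,
      cyl_apply, cyl_apply, add_smul, one_smul]
    exact Prod.ext (by simp only; abel) (by simp only; ring)
  | pred n ih =>
    have h : ∀ y s, (cyl α φ)⁻¹ (y, s) = (y - α, s - φ (y - α)) := fun _ _ => rfl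
    rw [show -(n : ℤ) - 1 = -1 + -n by ring, zpow_add, zpow_neg_one, Equiv.Perm.mul_apply,
      Equiv.Perm.mul_apply, ih t, ih 0, h, h, add_smul, neg_one_smul]
    exact Prod.ext (by simp only; abel) (by simp only; ring)

variable {X : Type*} [AddCommGroup X] [MetricSpace X] [IsTopologicalAddGroup X] [CompactSpace X]
  {α : X}

lemma cyl_zpow (P : Dat α) (x : X) (t : ℝ) (n : ℤ) :
    (cyl α (fun x => P.Ψ x 1) ^ n) (x, t) = (x + n • α, t + P.Ψ x n) := by
  have key : ∀ n : ℤ, cyl α (fun x => P.Ψ x 1) (x + n • α, t + P.Ψ x n) =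
      (x + (n + 1) • α, t + P.Ψ x (n + 1)) := fun n => by
    rw [cyl_apply, P.Ψ_add, add_smul, one_smul, add_assoc, add_assoc]
  induction n using Int.induction_on with
  | zero => simp [P.Ψ_zero]
  | succ n ih =>
    rw [add_comm (n : ℤ) 1, zpow_one_add, Equiv.Perm.mul_apply, ih, key, add_comm (n : ℤ) 1]
  | pred n ih =>
    apply (cyl α fun x => P.Ψ x 1).injective
    rw [key, ← Equiv.Perm.mul_apply, ← zpow_one_add, show (1 : ℤ) + (-(n : ℤ) - 1) = -n by ring,
      sub_add_cancel, ih]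

lemma dense_of_unbounded (P : Dat α) {x : X} (t : ℝ) (h1 : ¬∃ B, ∀ n, -B ≤ P.Ψ x n)
    (h2 : ¬∃ B, ∀ n, -B ≤ P.Ψ (P.z - x) n) : Dense (orbit α (fun x => P.Ψ x 1) (x, t)) := by
  push Not at h1 h2
  rw [Metric.dense_iff]
  rintro ⟨y, r⟩ ε hε
  obtain ⟨n, hn1, hn2⟩ := P.dense_core (x := x) (fun B => by simpa using h1 (-B)) (fun B => by
    obtain ⟨n, hn⟩ := h2 B
    exact ⟨-n, by rw [P.Ψ_refl] at hn; linarith⟩) y (r - t) hε
  refine ⟨(cyl α (fun x => P.Ψ x 1) ^ n) (x, t), ?_, n, rfl⟩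
  rw [cyl_zpow, Metric.mem_ball, Prod.dist_eq, max_lt_iff, Real.dist_eq]
  exact ⟨hn1, by rwa [show t + P.Ψ x n - r = P.Ψ x n - (r - t) by ring]⟩

lemma discrete_of_tendsto (P : Dat α) {x : X} (t : ℝ)
    (h : Tendsto (fun n => |P.Ψ x n|) cofinite atTop) :
    IsDiscreteOrbit α (fun x => P.Ψ x 1) (x, t) := by
  refine isDiscreteOrbit_of_tendsto _ _ _ ?_
  simpa only [cyl_zpow, add_sub_cancel_left] using h

/-- A minimal rotation of a compact metric abelian group carries a continuous real function whose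
cylindrical transformation has a dense orbit, has a discrete orbit, and has only dense or discrete
orbits, if and only if the group is infinite. -/
theorem result {X : Type*} [AddCommGroup X] [MetricSpace X] [IsTopologicalAddGroup X]
    [CompactSpace X] (α : X) (hα : ∀ x : X, DenseRange fun n : ℤ => x + n • α) :
    (∃ φ : X → ℝ, Continuous φ ∧ (∃ p : X × ℝ, Dense (orbit α φ p)) ∧
      (∃ p : X × ℝ, IsDiscreteOrbit α φ p) ∧
      ∀ p : X × ℝ, Dense (orbit α φ p) ∨ IsDiscreteOrbit α φ p) ↔ Infinite X := by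
  constructor
  · rintro ⟨φ, -, ⟨⟨x, t⟩, hd⟩, ⟨⟨x', t'⟩, -, ht⟩, -⟩
    by_contra hX
    have := not_infinite_iff_finite.1 hX
    obtain ⟨j, hj : x' + j • α = x⟩ :=
      (hα x').exists_mem_open (isOpen_discrete {x}) (Set.singleton_nonempty x)
    set c := ((cyl α φ ^ j) (x', t')).2
    have h1 : ∀ n : ℤ, ((cyl α φ ^ n) (x, t)).2 = ((cyl α φ ^ (n + j)) (x', t')).2 + (t - c) :=
      fun n => by
        have a1 : (cyl α φ ^ j) (x', t') = (x, c) := Prod.ext (by rw [cyl_zpow', hj]) rfl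
        rw [zpow_add, Equiv.Perm.mul_apply, a1, cyl_zpow' α φ x t, cyl_zpow' α φ x c]
        ring
    have h2 := eventually_cofinite.1 (tendsto_atTop.1
      (ht.comp (add_left_injective j).tendsto_cofinite) 1)
    have h3 := h2.image fun n => ((cyl α φ ^ n) (x, t)).2
    obtain ⟨_, ⟨h4, h5⟩, n, rfl⟩ := hd.inter_open_nonempty (Prod.snd ⁻¹' (_ \ _))
      ((isOpen_Ioo.sdiff h3.isClosed).preimage continuous_snd)
      (((Set.Ioo_infinite (by linarith : t' + (t - c) - 1 < t' + (t - c) + 1)).sdiff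
        h3).nonempty.preimage Prod.snd_surjective)
    refine h5 ⟨n, not_le.2 (abs_lt.2 ⟨?_, ?_⟩), rfl⟩ <;> linarith [h1 n, h4.1, h4.2]
  intro hX
  have h0 : DenseRange fun n : ℤ => n • α := by simpa using hα 0
  obtain ⟨P⟩ := exists_dat h0
  have h1 : ∀ {x}, (∃ B, ∀ n, -B ≤ P.Ψ x n) → Tendsto (fun n => |P.Ψ x n|) cofinite atTop :=
    fun ⟨_, h⟩ => tendsto_abs_atTop_atTop.comp (P.tendsto_of_F_le (P.F_le_of_bdd h))
  refine ⟨fun x => P.Ψ x 1, P.Ψ_cont 1, ?_, ⟨(0, 0), discrete_of_tendsto P _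
    (tendsto_abs_atTop_atTop.comp (P.tendsto_of_F_le fun K => (P.F_zero K).le))⟩, fun ⟨x, t⟩ => ?_⟩
  · obtain ⟨x, hx⟩ := P.exists_large h0
    refine ⟨(x, 0), dense_of_unbounded P _ ?_ ?_⟩ <;> rintro ⟨B, hB⟩
    · obtain ⟨K, hK⟩ := (hx ⌈B + 3⌉₊).1
      linarith [P.F_le_of_bdd hB K, Nat.le_ceil (B + 3)]
    · obtain ⟨K, hK⟩ := (hx ⌈B + 3⌉₊).2
      linarith [P.F_le_of_bdd hB K, Nat.le_ceil (B + 3)]
  · by_cases a1 : ∃ B, ∀ n, -B ≤ P.Ψ x n
    · exact Or.inr (discrete_of_tendsto P t (h1 a1))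
    by_cases a2 : ∃ B, ∀ n, -B ≤ P.Ψ (P.z - x) n
    · refine Or.inr (discrete_of_tendsto P t ?_)
      simpa only [Function.comp_def, P.Ψ_refl, abs_neg, neg_neg] using
        (h1 a2).comp neg_injective.tendsto_cofinite
    exact Or.inl (dense_of_unbounded P t a1 a2)

end Pool.Agent.Results.MP_c1c973_an.GroupDichotomy
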